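import Pool.Agent.Q57.GC.TopS

/-!
# The minimal model program with scaling for toroidal pairs on covers of projective space: finitely
many thresholds

Let `F k`, `k = 0, ..., n`, be forms of degrees `d k` in `n + 1` variables whose zero sets in the
projective `n`-space are smooth hypersurfaces with normal crossings, and `∑ k, d k ≥ n + 1`. Let `K`
be the function field of an abelian cover `Y` of the projective space which is branched only along
these hypersurfaces: `K` is generated by the affine coordinates and by roots `z j`,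
`z j ^ (m j) = ∏ k, (F k (x) / x 0 ^ (d k)) ^ (a j k)`, where `m j` divides `∑ k, a j k * d k`. (For
`n ≥ 2` all finite covers which are branched only along these hypersurfaces are abelian; covers
which are branched along fewer hypersurfaces are included: add general hyperplanes, `a j k = 0`. If
`∑ k, d k ≤ n`, then no combination of the divisors which are considered here is pseudo-effective.)

A prime divisor `P` over `Y` (a divisorial place of `K`) has the vector `multiplicities F d x P`
of the multiplicities `v k` of the hypersurfaces along `P`, and the log discrepancy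
`logDiscrepancy F d x P` of the projective space with the boundary `∑ k, (F k = 0)`: the order of the
logarithmic canonical forms along `P`, plus one. It is `0` for the toroidal divisors `P`, whose
vectors `v ≠ 0` of nonnegative integers, not all positive, have `m j ∣ ∑ k, a j k * v k` for all `j`
(`Admissible`), and it is positive for all other `P`.

**The pairs.** Two boundaries `Δ` and `Δ'` are given by the functions `ψ 0` and `ψ 1` on the vectors,
`ψ i ≥ 0`, `ψ i 0 = 0`: the log discrepancies of `(X, Δ)` and `(X, Δ')` along any prime divisor `P`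
over `X` are `ψ i v + logDiscrepancy F d x P`, `v` the vector of `P`. Let `X` be a toroidal modification
of `Y`, given by a subdivision of the fan of the faces of the positive orthant, and let `Δ` and `Δ'`
be divisors supported over the hypersurfaces with rational coefficients between `0` and `1`, such
that `K + Δ` and `K + Δ'` are `ℚ`-Cartier (`(X, Δ)` and `(X, Δ')` are log canonical pairs, klt if all
coefficients are less than one). Then the `ψ i` are the functions which are linear on the cones of the
fan, with the value `1 - δ_ρ` at the generator `ρ` of a ray, `δ_ρ` the coefficient of the divisor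
`D_ρ`.

**Scaling.** The minimal model program for `K + Δ` with scaling of `H = K + Δ'` (for example, of an
ample divisor `H` of this form) considers the divisors `K + Δ + t H`, `t ≥ 0`: its models are the
ample models of these divisors (for `t` in open intervals) and the models between them.

**The theorem.** There are a finite set `Θ` of rational numbers and an integer `T ≥ 1` such that the
following holds.

* (the pseudo-effective threshold) If `K + Δ + s H` is not pseudo-effective and `K + Δ + t H` is, `0 ≤
  s ≤ t`, then there is a `θ` in `Θ`, `s < θ ≤ t`, such that for all `0 ≤ x ≤ t` the divisor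
  `K + Δ + x H` is pseudo-effective if and only if `θ ≤ x`.
* (nef thresholds) If there is no element of `Θ` between `s` and `t` and `K + Δ + x H` is nef for some
  `x` between them, then it is nef for `s` and `t` (hence for all values between `s` and `t`).
* (effective base point freeness) If `a (K + Δ) + b H` is nef, for integers `a, b ≥ 0`, then
  `T (a (K + Δ) + b H)` has for every prime divisor `P` a section which does not vanish at `P`.
* (asymptotic orders) For every prime divisor `P` and every frame `D` of rational vector fields there is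
  a function `σ` such that `σ t` is the asymptotic order of vanishing (Nakayama's `σ_P`) of
  `K + Δ + t H` along `P`, if this divisor is pseudo-effective, and `σ` is affine linear on every
  interval which contains no element of `Θ` in its interior. For all integers `a ≥ 1` and `b ≥ 0` such
  that `a (K + Δ) + b H` is pseudo-effective, the divisor `T (a (K + Δ) + b H)` has a section whose
  order at `P` is exactly `T a σ (b / a)`.

The finite set `Θ` and the integer `T` do not depend on `P`. Since the orders of the sections along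
all `P` determine the ample models, there are only finitely many of them, one for each interval (and
for each threshold): the minimal model program with scaling passes through finitely many models,
which is the known termination with scaling for klt pairs and `H` ample (Birkar, Cascini, Hacon,
McKernan). Here the pairs may be log canonical, and `H = K + Δ'` need be neither ample nor big. If
`K + Δ` is not pseudo-effective, but `K + Δ + t H` is, the program stops at the threshold `θ` with a
Mori fibre space.
-/

set_option autoImplicit false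

open FF MvPolynomial Pool.Agent.W602.GT

namespace Pool.Agent.Results.MP_89a3f8_ag.ScalingThresholds

/-- The hypersurfaces `F k = 0` have normal crossings: at every point of the projective space the
gradients of the forms `F k` which vanish at this point are linearly independent. -/
def NormalCrossings {n : ℕ} (F : Fin (n + 1) → MvPolynomial (Fin (n + 1)) ℂ) : Prop :=
  ∀ x : Fin (n + 1) → ℂ, x ≠ 0 → LinearIndependent ℂ
    fun (k : {k // eval x (F k) = 0}) (l : Fin (n + 1)) => eval x (pderiv l (F k.1))

section places

variable {n R : ℕ} {K : Type} [Field K] [Algebra ℂ K]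

/-- The affine coordinates of the projective space. -/
noncomputable def affine (x : Fin (n + 1) → K) (b : Fin n) : K := x b.succ / x 0

/-- The minimal order at `P` of the homogeneous coordinates `x`. -/
noncomputable def minimalOrder (x : Fin (n + 1) → K) (P : Place ℂ K) : ℤ :=
  Finset.univ.inf' Finset.univ_nonempty fun j => P.ord (x j)

/-- The multiplicities of the hypersurfaces `F k = 0` along the prime divisor `P`; the `x j` are the
homogeneous coordinates, which are divided by one of minimal order at `P`. -/
noncomputable def multiplicities (F : Fin (n + 1) → MvPolynomial (Fin (n + 1)) ℂ)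
    (d : Fin (n + 1) → ℕ) (x : Fin (n + 1) → K) (P : Place ℂ K) (k : Fin (n + 1)) : ℕ :=
  (P.ord (aeval x (F k)) - d k * minimalOrder x P).toNat

/-- The canonical form of the projective space, evaluated at the vector fields `D`: `x 0 ^ (n + 1)`
times the determinant of the derivatives of the affine coordinates. -/
noncomputable def canonicalForm (x : Fin (n + 1) → K) (D : Fin n → Derivation ℂ K K) : K :=
  x 0 ^ (n + 1) * (Matrix.of fun a b : Fin n => D a (affine x b)).det

/-- The order of the canonical form along `P`: the minimal order of its values at vector fields which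
are regular at `P`. -/
noncomputable def formOrder (x : Fin (n + 1) → K) (P : Place ℂ K) : ℤ :=
  sInf {k : ℤ | ∃ D : Fin n → Derivation ℂ K K, (∀ a, DerReg P (D a)) ∧
    canonicalForm x D ≠ 0 ∧ P.ord (canonicalForm x D) = k}

/-- The log discrepancy along `P` of the projective space, with the boundary `∑ k, (F k = 0)`: the
order along `P` of the logarithmic canonical forms, which are obtained from the canonical form by the
division by the local equations of the hypersurfaces and by the power `n + 1` of a coordinate `x j` of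
minimal order, plus one. -/
noncomputable def logDiscrepancy (F : Fin (n + 1) → MvPolynomial (Fin (n + 1)) ℂ)
    (d : Fin (n + 1) → ℕ) (x : Fin (n + 1) → K) (P : Place ℂ K) : ℤ :=
  formOrder x P + 1 - ∑ k, (multiplicities F d x P k : ℤ) - ((n : ℤ) + 1) * minimalOrder x P

/-- The coefficient of `P` in the pullback of `K + Δ`, for the pair with the function `ψ`: its log
discrepancy along `P` is `ψ v + logDiscrepancy F d x P`, `v` the vector of the multiplicities. -/
noncomputable def coefficient (F : Fin (n + 1) → MvPolynomial (Fin (n + 1)) ℂ)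
    (d : Fin (n + 1) → ℕ) (x : Fin (n + 1) → K) (ψ : (Fin (n + 1) → ℕ) → ℚ) (P : Place ℂ K) : ℚ :=
  1 - ψ (multiplicities F d x P) - logDiscrepancy F d x P

/-- The multiplicities which satisfy the divisibility conditions. -/
def Admissible (m : Fin R → ℕ) (a : Fin R → Fin (n + 1) → ℕ) (v : Fin (n + 1) → ℕ) : Prop :=
  v ≠ 0 ∧ (∃ k, v k = 0) ∧ ∀ j, m j ∣ ∑ k, a j k * v k

/-- The functions `ψ i` are the log discrepancies of boundaries along the toroidal divisors: they are
not negative (the pairs are log canonical), at most homogeneous along the rays, and for a finite set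
`T` of vectors every admissible vector `v` is at least a nonnegative combination of the vectors in
`T`, such that all `ψ i v` are at most the combinations of the values at the vectors in `T`. -/
structure AreBoundaries {p : ℕ} (m : Fin R → ℕ) (a : Fin R → Fin (n + 1) → ℕ)
    (ψ : Fin p → (Fin (n + 1) → ℕ) → ℚ) : Prop where
  zero : ∀ i, ψ i 0 = 0
  nonneg : ∀ i v, 0 ≤ ψ i v
  ray : ∀ i v (k : ℕ), 1 ≤ k → Admissible m a v → ψ i (k • v) ≤ k * ψ i v
  finite : ∃ T : Finset (Fin (n + 1) → ℕ), (∀ s ∈ T, Admissible m a s) ∧ ∀ v, Admissible m a v →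
    ∃ w : (Fin (n + 1) → ℕ) → ℚ, (∀ s, 0 ≤ w s) ∧ (∀ k, ∑ s ∈ T, w s * s k ≤ v k) ∧
      ∀ i, ψ i v ≤ ∑ s ∈ T, w s * ψ i s

end places

section sections

variable {K : Type} [Field K] [Algebra ℂ K] {p : ℕ} (N : ℕ) (δ : Fin p → Place ℂ K → ℚ)

/-- `ω` is a section of `∑ i, μ i (K + Δ i) + j A`: a rational section of the power of the canonical
bundle with the exponent `∑ i, μ i` (`IsPluri`: a function of `N` rational vector fields which is
multiplied by the power of `det B` under a linear substitution `B`) whose order on the vector fields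
which are regular at `P` is at least `j` times the order of one of the functions in `S`, minus
`∑ i, μ i * δ i P`, where `δ i P` is the coefficient of `P` in the pullback of `K + Δ i`, for all
prime divisors `P` (all divisorial places `P` of `K`). Here `A` is the divisor which is generated by
the finite set `S` of functions; `A = 0` if `S = {1}`. -/
def IsSection (S : Finset K) (μ : Fin p →₀ ℕ) (j : ℕ) (ω : (Fin N → Derivation ℂ K K) → K) :
    Prop :=
  IsPluri (∑ i, μ i) ω ∧ ∀ P : Place ℂ K, Divisorial N P → ∀ D : Fin N → Derivation ℂ K K,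
    (∀ c, DerReg P (D c)) → ω D = 0 ∨ ∃ s ∈ S, s ≠ 0 ∧
      (j : ℚ) * P.ord s - ∑ i, (μ i : ℚ) * δ i P ≤ P.ord (ω D)

/-- The real combination `∑ i, lam i (K + Δ i)` is pseudo-effective: there is a divisor `A` such that
for all `M` a positive multiple `j (M ∑ i, lam i (K + Δ i) + A)` has a nonzero section, after a
change of the coefficients `j M lam i` by at most `j`. -/
def Pseudoeffective (lam : Fin p → ℝ) : Prop :=
  ∃ S : Finset K, ∀ M : ℕ, ∃ j : ℕ, 1 ≤ j ∧ ∃ μ : Fin p →₀ ℕ,
    (∀ i, |(μ i : ℝ) - j * M * lam i| ≤ j) ∧ ∃ η, η ≠ 0 ∧ IsSection N δ S μ j η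

/-- The real combination `∑ i, lam i (K + Δ i)` is nef: there is a divisor `A` such that for all
`M ≥ 1` a positive multiple `j (M ∑ i, lam i (K + Δ i) + A)` has no base points: for every prime
divisor `P` there is, after a change of the coefficients `j M lam i` by at most `j`, a section which
does not vanish at `P`. -/
def Nef (lam : Fin p → ℝ) : Prop :=
  ∃ S : Finset K, (∃ s ∈ S, s ≠ 0) ∧ ∀ M : ℕ, 1 ≤ M → ∃ j : ℕ, 1 ≤ j ∧
    ∀ P : Place ℂ K, Divisorial N P → ∃ μ : Fin p →₀ ℕ, (∀ i, |(μ i : ℝ) - j * M * lam i| ≤ j) ∧
      ∃ η, IsSection N δ S μ j η ∧ ∃ D, (∀ c, DerReg P (D c)) ∧ η D ≠ 0 ∧ ∀ s ∈ S, s ≠ 0 →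
        (P.ord (η D) : ℚ) ≤ j * P.ord s - ∑ i, (μ i : ℚ) * δ i P

/-- The section `ω` of `∑ i, g i (K + Δ i)` does not vanish at `P`. -/
def DoesNotVanish (g : Fin p →₀ ℕ) (ω : (Fin N → Derivation ℂ K K) → K) (P : Place ℂ K) : Prop :=
  ∃ D, (∀ c, DerReg P (D c)) ∧ ω D ≠ 0 ∧ (P.ord (ω D) : ℚ) ≤ - ∑ i, (g i : ℚ) * δ i P

/-- `s` is the asymptotic order of vanishing of `∑ i, lam i (K + Δ i)` along `P`, where the orders of
the sections are those of their values at the vector fields `D`: the orders of all sections of
divisors `∑ i, μ i (K + Δ i) + j A`, `μ ≠ 0`, which are close to `M ∑ i, lam i (K + Δ i)` are at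
least `(s - ε) M`, and there are such sections, with `A = 0`, of order at most `(s + ε) M`. -/
def IsAsymptoticOrder (P : Place ℂ K) (D : Fin N → Derivation ℂ K K) (lam : Fin p → ℝ) (s : ℝ) :
    Prop :=
  (∀ ε : ℝ, 0 < ε → ∀ S : Finset K, ∃ θ : ℝ, 0 < θ ∧ ∃ M₀ : ℕ, ∀ M : ℕ, M₀ ≤ M →
    ∀ (μ : Fin p →₀ ℕ) (j : ℕ) (η : (Fin N → Derivation ℂ K K) → K), μ ≠ 0 →
      (∀ i, |(μ i : ℝ) - M * lam i| ≤ θ * M) → (j : ℝ) ≤ θ * M → IsSection N δ S μ j η →
        η D ≠ 0 → (s - ε) * M ≤ P.ord (η D)) ∧
  ∀ ε : ℝ, 0 < ε → ∀ M₀ : ℕ, ∃ M : ℕ, M₀ ≤ M ∧ ∃ (μ : Fin p →₀ ℕ)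
    (η : (Fin N → Derivation ℂ K K) → K), (∀ i, |(μ i : ℝ) - M * lam i| ≤ ε * M) ∧
      IsSection N δ {1} μ 0 η ∧ η D ≠ 0 ∧ (P.ord (η D) : ℝ) ≤ (s + ε) * M

end sections

/-- The coefficients of the divisor `K + Δ + t (K + Δ')`. -/
def scaled (t : ℝ) : Fin 2 → ℝ := ![1, t]

/-- **The thresholds of the minimal model program with scaling.** Let `K` be the function field of an
abelian cover of the projective `n`-space which is branched along `n + 1` hypersurfaces `F k = 0` with
normal crossings, and let `Δ`, `Δ'` be the boundaries whose log discrepancies along the toroidal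
divisors are given by `ψ 0`, `ψ 1`; `H = K + Δ'`. There are finitely many rational numbers `θ ∈ Θ` and
an integer `T ≥ 1` such that the pseudo-effective thresholds of the divisors `K + Δ + t H` lie in
`Θ`, these divisors are nef on closed intervals between elements of `Θ`, the multiples by `T` of the
integral nef combinations are base point free, the asymptotic orders of vanishing along every prime
divisor are affine linear functions of `t` between the elements of `Θ`, and for integral combinations
they are attained by sections of the multiples by `T`. -/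
theorem result (n R : ℕ) (hn : 1 ≤ n) (d : Fin (n + 1) → ℕ) (hd : ∀ k, 1 ≤ d k)
    (hsum : n + 1 ≤ ∑ k, d k)
    (F : Fin (n + 1) → MvPolynomial (Fin (n + 1)) ℂ) (hF : ∀ k, (F k).IsHomogeneous (d k))
    (hs : NormalCrossings F) (m : Fin R → ℕ) (hm : ∀ j, 1 ≤ m j) (a : Fin R → Fin (n + 1) → ℕ)
    (hdiv : ∀ j, m j ∣ ∑ k, a j k * d k)
    (K : Type) [Field K] [Algebra ℂ K] (x : Fin (n + 1) → K) (hx0 : x 0 ≠ 0)
    (hbas : IsTranscendenceBasis ℂ (affine x)) (z : Fin R → K)
    (hz : ∀ j, z j ^ m j = ∏ k, (aeval x (F k) / x 0 ^ d k) ^ a j k)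
    (hgen : IntermediateField.adjoin ℂ (Set.range (affine x) ∪ Set.range z) = ⊤)
    (ψ : Fin 2 → (Fin (n + 1) → ℕ) → ℚ) (hψ : AreBoundaries m a ψ)
    (δ : Fin 2 → Place ℂ K → ℚ) (hδ : ∀ i, δ i = coefficient F d x (ψ i)) :
    ∃ (T : ℕ) (Θ : Finset ℚ), 1 ≤ T ∧
      (∀ s t : ℝ, 0 ≤ s → s ≤ t → ¬ Pseudoeffective n δ (scaled s) →
        Pseudoeffective n δ (scaled t) → ∃ θ ∈ Θ, s < θ ∧ (θ : ℝ) ≤ t ∧
          ∀ x : ℝ, 0 ≤ x → x ≤ t → (Pseudoeffective n δ (scaled x) ↔ (θ : ℝ) ≤ x)) ∧
      (∀ s x t : ℝ, 0 ≤ s → s < x → x < t → (∀ θ ∈ Θ, ¬ (s < θ ∧ (θ : ℝ) < t)) →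
        Nef n δ (scaled x) → Nef n δ (scaled s) ∧ Nef n δ (scaled t)) ∧
      (∀ a b : ℕ, Nef n δ ![(a : ℝ), (b : ℝ)] → ∀ P : Place ℂ K, Divisorial n P →
        ∃ μ : Fin 2 →₀ ℕ, μ 0 = T * a ∧ μ 1 = T * b ∧ ∃ η, IsSection n δ {1} μ 0 η ∧
          DoesNotVanish n δ μ η P) ∧
      ∀ (P : Place ℂ K) (D : Fin n → Derivation ℂ K K),
        (∃ S μ j η, μ ≠ 0 ∧ IsSection n δ S μ j η ∧ η D ≠ 0) →
        ∃ σ : ℝ → ℝ,
          (∀ t, 0 ≤ t → Pseudoeffective n δ (scaled t) →
            IsAsymptoticOrder n δ P D (scaled t) (σ t)) ∧
          (∀ s x t, 0 ≤ s → s ≤ x → x ≤ t → Pseudoeffective n δ (scaled s) →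
            Pseudoeffective n δ (scaled t) → (∀ θ ∈ Θ, ¬ (s < θ ∧ (θ : ℝ) < t)) →
              (t - s) * σ x = (t - x) * σ s + (x - s) * σ t) ∧
          ∀ a b : ℕ, 1 ≤ a → Pseudoeffective n δ (scaled ((b : ℝ) / a)) →
            ∃ μ : Fin 2 →₀ ℕ, μ 0 = T * a ∧ μ 1 = T * b ∧ ∃ η, IsSection n δ {1} μ 0 η ∧
              η D ≠ 0 ∧ (P.ord (η D) : ℝ) = T * a * σ ((b : ℝ) / a) := by
  obtain ⟨e, rfl⟩ : ∃ e, n = e + 1 := ⟨n - 1, by omega⟩
  obtain ⟨T, Θ, h1, h2, h3, h4, h5⟩ := Pool.Agent.Q57.GC.top_s hx0 hbas hd hF hs hm hz hdiv hgen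
    hsum hψ.zero hψ.nonneg hψ.ray hψ.finite (δ := δ) (fun i P => by
      rw [hδ]
      unfold coefficient
      congr 2)
  refine ⟨T, Θ, h1, h2, fun s x t hs hsx hxt hno hn => h3 s x t hs hsx.le hxt.le hno hsx hxt hn,
    fun a b hn P hP => ?_, fun P D hD => ?_⟩
  · obtain ⟨μ, h6, h7, η, h8, h9⟩ := h4 a b hn P hP
    exact ⟨μ, h6, h7, η, Pool.Agent.Q57.GG.msec_asec h8, h9⟩
  · obtain ⟨σ, h6, h7, h8⟩ := h5 P D hD
    refine ⟨σ, fun t ht hp => ?_, h7, fun a b ha hp => ?_⟩
    · obtain ⟨h9, h10⟩ := h6 t ht hp
      refine ⟨h9, fun ε hε M₀ => ?_⟩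
      obtain ⟨M, hM, μ, η, h11, h12, h13, h14⟩ := h10 ε hε M₀
      exact ⟨M, hM, μ, η, h11, Pool.Agent.Q57.GG.msec_asec h12, h13, h14⟩
    · obtain ⟨μ, h9, h10, η, h11, h12, h13⟩ := h8 a b ha hp
      exact ⟨μ, h9, h10, η, Pool.Agent.Q57.GG.msec_asec h11, h12, h13⟩

end Pool.Agent.Results.MP_89a3f8_ag.ScalingThresholds
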