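import Pool.Agent.Q47.FLIP.Ord
import Pool.Agent.Q47.FLIP.Mod

/-!
# Finiteness of models and termination of flips for toric bundles over quotients of complex tori

Let `X = V / Γ` be the quotient of a complex torus of any dimension by any finite group (with or
without fixed points and reflections), and let `Y → X` be a toric bundle: a locally trivial bundle
whose fibre is a smooth complete toric variety, twisted by arbitrary line bundles `c_i` on `X`. Let
`Δ_0, ..., Δ_s` be effective `ℚ`-divisors on `Y` such that `D_j = m (K_Y + Δ_j)` is integral and such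
that for each `j` the pair `(Y_v, Δ_j)` is log canonical for one fibre `Y_v` of `Y → X` (which may
depend on `j`). For `t ∈ ℝ^(s+1)` let `D(t) = ∑ t_j D_j`.

Let `w` run through all discrete valuations centred on `Y` (for example the orders of vanishing along
the prime divisors over `Y`), and let `o_w(t)` be the asymptotic order of vanishing of `D(t)` at `w`.
Call a family of linear forms `x(w)` a model if `o_w(t) = x(w)(t)` for all `w` and all integral `t` in
some nonempty open cone of positive vectors.

Let `Y ⇢ Y'` be a birational map which contracts no divisors on `Y'` (for example a composition of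
flips) such that `Y'` is `ℚ`-factorial and such that for the `t` in a nonempty open set the class
of `D(t)` on `Y'` is ample. Then for all real `c` the pullbacks of `D(c)` from `Y` and of its strict
transform from `Y'` differ by `∑ x(w)(c) w`, where `x` is a model: for the `t` in the open set `x(w)(t)`
is the order of the fixed part of the multiples of `D(t)`, and both sides are linear. If
`K_Y + Δ` is numerically `D(c)`, then `x(w)(c)` is the change of the discrepancy at `w`. In a sequence
of flips for `K_Y + Δ` the discrepancies do not decrease, and one increases in each step.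

The theorem: the number of models is finite, at most `B`, and every sequence of models such that, for
some real `c`, in each step `x(w)(c)` does not decrease for all `w` and increases for some `w` has less
than `B` steps. So `B` bounds the length of all sequences of flips, for all `Δ` at the same time.

The proof. By `Pool.Agent.Q47.GEO` the pairs `(t, α)` of the monomials `x ^ α` in sections of `D(t)`
form, up to saturation, a finitely generated semigroup `Q`, and the monomials of the sections of
`D(t) + A` are near `Q`. So the asymptotic order of `D(t)` at `w` is the minimum of `w(x ^ β)` over the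
fibre of the cone of `Q` over `t`. It is attained at a rational point, and is linear in `t` on the
chambers of a finite hyperplane arrangement which does not depend on `w`. (The lower bound for
`D(t) + A` uses that a set of vectors of natural numbers has finitely many minimal elements.) The linear
forms of a model are determined by their values at the integral vectors in an open cone.
-/

set_option autoImplicit false

universe u w

namespace Pool.Agent.Results.MP_89a3f8_ag.ToricBundles

open Pool.Agent.W594.SYZ2 Pool.Agent.TH735.AQ Q47.TB Q47.FLIP MvPolynomial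

variable {V : Type u} [NormedAddCommGroup V] [NormedSpace ℂ V] {ι : Type w} [Fintype ι]

/-- Let `X = V / Γ` be a torus quotient, let `ρ` define the ramification divisor of `V → X`, let
`Y → X` be the toric bundle given by a smooth complete fan with the rays `r i` and by line bundles
`c i` on `X` with Chern forms `Hc i`, let `F j` define the effective divisor `m Δ_j` on `Y`
(`j = 0, ..., s`, `s ≥ 1`), and let `D_j = O_Y(m (K_Y + Δ_j))` be the line bundle on `Y` given by the
class of `D j = d j - m (1, ..., 1)` and by `L j`, with Chern forms `H j`. Assume that for each `j` the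
fibre `(Y_v, Δ_j)` is log canonical for some `v = v₀ j`. Let `D(t) = ∑ t_j D_j`.

There is a number `B` such that

(1) the set of the models `x` has at most `B` elements: the families `x(w)` of real vectors, `w` a
discrete valuation centred on `Y`, such that for some nonempty open set `U` of positive vectors
and all integral `t` in the cone over `U` the asymptotic order of `D(t)` at `w` is `⟨x(w), t⟩` for all
`w`;

(2) each nonempty open set `U` of positive vectors such that for all integral `t` in the cone over `U`
a positive multiple of `D(t)` has a nonzero section contains a nonempty open set `U'` which belongs to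
a model;

(3) if `x_0, ..., x_k` are models and `κ` is a real vector such that for all `i < k`
`⟨x_i(w), κ⟩ ≤ ⟨x_{i+1}(w), κ⟩` for all `w` and `⟨x_i(w), κ⟩ < ⟨x_{i+1}(w), κ⟩` for some `w`, then
`k < B`. -/
theorem result [FiniteDimensional ℂ V] (Γ : Subgroup (V ≃ᵃ[ℂ] V)) (hΓ : IsTorusQuotient Γ)
    (ρ : V → ℂ) (hρ : IsRamification Γ ρ)
    (n : ℕ) (r : ι → Fin n → ℤ) (S : Set (Set ι)) (hS : IsSmoothFan r S)
    (c : ι → LineBundle Γ) (Hc : ι → V → V → ℂ) (hc : ∀ i, IsChernForm (c i) (Hc i))
    (s : ℕ) (hs : 1 ≤ s) (m : ℕ) (hm : 1 ≤ m) (d : Fin (s + 1) → ι → ℤ)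
    (F : Fin (s + 1) → V → MvPolynomial ι ℂ) (L : Fin (s + 1) → LineBundle Γ)
    (H : Fin (s + 1) → V → V → ℂ) (hL : ∀ j, IsChernForm (L j) (H j))
    (hF : ∀ j, Q47.TB.IsLogPluricanonical r c m ρ (d j) (F j) (L j))
    (v₀ : Fin (s + 1) → V) (hlc : ∀ j, IsLogCanonical S m (F j (v₀ j)))
    (D : Fin (s + 1) → ι → ℤ) (hD : D = fun j i => d j i - m) :
    ∃ B : ℕ,
      {x : Valn V S → Fin (s + 1) → ℝ | IsModel (IsAsymptoticOrder r c D L) x}.encard ≤ B ∧
      (∀ U : Set (Fin (s + 1) → ℝ), IsOpen U → U.Nonempty → (∀ t ∈ U, ∀ j, 0 < t j) →
        (∀ t : Fin (s + 1) → ℕ, (∃ x : ℝ, 0 < x ∧ (fun j => x * (t j : ℝ)) ∈ U) →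
          ∃ k : ℕ, 1 ≤ k ∧ ∃ G, IsSectionOf r c D L (fun j => k * t j) G ∧ G ≠ 0) →
        ∃ U' ⊆ U, IsOpen U' ∧ U'.Nonempty ∧ ∃ x : Valn V S → Fin (s + 1) → ℝ,
          IsModelOn (IsAsymptoticOrder r c D L) U' x) ∧
      ∀ (κ : Fin (s + 1) → ℝ) (k : ℕ) (x : ℕ → Valn V S → Fin (s + 1) → ℝ),
        (∀ i ≤ k, IsModel (IsAsymptoticOrder r c D L) (x i)) →
        (∀ i < k, (∀ w, ∑ j, x i w j * κ j ≤ ∑ j, x (i + 1) w j * κ j) ∧
          ∃ w, ∑ j, x i w j * κ j < ∑ j, x (i + 1) w j * κ j) → k < B := by
  classical
  obtain ⟨p, T, a, h⟩ := exists_data (Hc := Hc) hΓ hρ hS hs hc hm hL hF hlc hD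
  obtain ⟨W, σ, hσ⟩ := h.linear
  have h1 : {x : Valn V S → Fin (s + 1) → ℝ | IsModel (IsAsymptoticOrder r c D L) x}
      ⊆ Set.range σ :=
    models (Psef := fun t => (Q47.GEO.fib T a t).Nonempty) hσ
      (fun w t o o' ho ho' => order_unique ho ho') fun w t o ho => h.fib_of_order ho
  have h2 := (Set.encard_le_encard h1).trans (card_range W σ)
  refine ⟨3 ^ W.card, h2, fun U hU hne _ hp => ?_, fun κ k x hx hκ => ?_⟩
  · exact exists_model (Psef := fun t => (Q47.GEO.fib T a t).Nonempty) hσ hU hne fun t ht => by
      obtain ⟨k, hk, G, hG, hG0⟩ := hp t ht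
      exact h.fib_of_section hk hG hG0
  · exact chain h2 (fun x w => ∑ j, x w j * κ j) x hx hκ

end Pool.Agent.Results.MP_89a3f8_ag.ToricBundles
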